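import Pool.Agent.V5helper49.PTR.Stm

/-!
# Project PTR, piece STEP (helper9)
-/

set_option autoImplicit false

namespace Pool.Agent.V5helper9.PTR

open Finset Filter
open Pool.Agent.V5helper42.RS (W model)
open Pool.Agent.V5helper49.PTR

lemma adm_refl {N : ℕ} {F : Finset ℕ} (hF : F ⊆ Icc 1 N) (h : Adm F) :
    Adm (F.image (fun k => N - k)) := by
  intro p hp
  obtain ⟨b, hb, hb2⟩ := h p hp
  refine ⟨(N + (p - b)) % p, Nat.mod_lt _ hp.pos, ?_⟩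
  intro t ht h0
  obtain ⟨k, hk, rfl⟩ := mem_image.1 ht
  have hkN : k ≤ N := (mem_Icc.1 (hF hk)).2
  apply hb2 k hk
  have h1 : N - k ≡ N + (p - b) [MOD p] := h0
  have h2 : (N - k) + (k + b) ≡ (N + (p - b)) + (k + b) [MOD p] := Nat.ModEq.add_right _ h1
  have h3 : (N - k) + (k + b) = N + b := by omega
  have h4 : (N + (p - b)) + (k + b) = N + (p + k) := by omega
  rw [h3, h4] at h2
  have h5 : b ≡ p + k [MOD p] := Nat.ModEq.add_left_cancel' N h2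
  have h6 : k % p = b % p := by
    have h7 : b % p = (p + k) % p := h5
    rw [h7, Nat.add_mod_left]
  rw [h6, Nat.mod_eq_of_lt hb]

lemma ev1 (β : ℝ) (hβ2 : β ≤ 1 / 12) : ∀ᶠ y : ℝ in atTop, 2 * y ^ β ≤ y ^ (1 / 10 : ℝ) := by
  have h : Tendsto (fun y : ℝ => y ^ (1 / 10 - β)) atTop atTop := tendsto_rpow_atTop (by linarith)
  filter_upwards [h.eventually_ge_atTop 2, eventually_gt_atTop 0] with y h1 h2
  have h3 : y ^ (1 / 10 : ℝ) = y ^ (1 / 10 - β) * y ^ β := by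
    rw [← Real.rpow_add h2]; congr 1; ring
  rw [h3]
  exact mul_le_mul_of_nonneg_right h1 (by positivity)

lemma sq_quarter (z : ℝ) (hz : 0 ≤ z) : (2 * z ^ (1 / 4 : ℝ)) ^ 2 = 4 * Real.sqrt z := by
  rw [mul_pow, ← Real.rpow_natCast (z ^ (1 / 4 : ℝ)) 2, ← Real.rpow_mul hz, Real.sqrt_eq_rpow]
  norm_num

lemma fl (z : ℝ) (hz : 64 ≤ z) : z ^ (1 / 4 : ℝ) ≤ Real.sqrt (⌊z⌋₊ : ℝ) / 2 := by
  have h1 : z / 2 ≤ (⌊z⌋₊ : ℝ) := by
    have := Nat.lt_floor_add_one z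
    linarith
  have h8 : (8 : ℝ) ≤ Real.sqrt z := Real.le_sqrt_of_sq_le (by linarith)
  have h9 : Real.sqrt z * Real.sqrt z = z := Real.mul_self_sqrt (by linarith)
  have h2 : (2 * z ^ (1 / 4 : ℝ)) ^ 2 ≤ (⌊z⌋₊ : ℝ) := by
    rw [sq_quarter z (by linarith)]
    nlinarith
  have := Real.le_sqrt_of_sq_le h2
  linarith

lemma pw (x κ : ℝ) (hx : 16 ≤ x) (hκ : κ ≤ 1 / 4) : x ^ κ ≤ Real.sqrt x / 2 := by
  have h8 : (4 : ℝ) ≤ Real.sqrt x := Real.le_sqrt_of_sq_le (by linarith)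
  have h9 : Real.sqrt x * Real.sqrt x = x := Real.mul_self_sqrt (by linarith)
  have h2 : (2 * x ^ (1 / 4 : ℝ)) ^ 2 ≤ x := by
    rw [sq_quarter x (by linarith)]
    nlinarith
  have h3 := Real.le_sqrt_of_sq_le h2
  have h4 : x ^ κ ≤ x ^ (1 / 4 : ℝ) := Real.rpow_le_rpow_of_exponent_le (by linarith) hκ
  linarith

lemma evA (s : ℕ) (hs : 1 ≤ s) (N : ℕ) (hN : 4 * 2 ^ s + 2 ≤ N) :
    4 * ((N : ℝ) + 2) ^ s + 2 * N ≤ (N : ℝ) ^ (s + 1) := by
  have hN' : (4 * 2 ^ s + 2 : ℝ) ≤ N := by exact_mod_cast hN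
  have h2 : (0 : ℝ) < 2 ^ s := by positivity
  have hN2 : (2 : ℝ) ≤ N := by linarith
  have h3 : ((N : ℝ) + 2) ^ s ≤ (2 * N) ^ s := pow_le_pow_left₀ (by linarith) (by linarith) s
  have h4 : (N : ℝ) ≤ (N : ℝ) ^ s := by
    calc (N : ℝ) = (N : ℝ) ^ 1 := (pow_one _).symm
      _ ≤ (N : ℝ) ^ s := pow_le_pow_right₀ (by linarith) hs
  have h5 : (0 : ℝ) ≤ (N : ℝ) ^ s := by positivity
  rw [mul_pow] at h3
  calc 4 * ((N : ℝ) + 2) ^ s + 2 * N ≤ 4 * (2 ^ s * N ^ s) + 2 * N ^ s := by linarith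
    _ = (4 * 2 ^ s + 2) * (N : ℝ) ^ s := by ring
    _ ≤ N * (N : ℝ) ^ s := mul_le_mul_of_nonneg_right hN' h5
    _ = (N : ℝ) ^ (s + 1) := by ring

lemma evB (s : ℕ) (β : ℝ) (hβ : 0 < β) :
    ∀ᶠ N : ℕ in atTop, (N : ℝ) ^ (s + 1) + 1 ≤ Real.exp (β * N) := by
  have h := (isLittleO_pow_exp_pos_mul_atTop (k := s + 2) hβ).def (c := 1) one_pos
  have h' := (tendsto_natCast_atTop_atTop (R := ℝ)).eventually h
  filter_upwards [h', eventually_ge_atTop 2] with N h1 h2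
  rw [Real.norm_eq_abs, Real.norm_eq_abs, abs_of_nonneg (by positivity), abs_of_pos (Real.exp_pos _), one_mul] at h1
  have h3 : (2 : ℝ) ≤ N := by exact_mod_cast h2
  have h4 : (1 : ℝ) ≤ (N : ℝ) ^ (s + 1) := one_le_pow₀ (by linarith)
  have h5 : (N : ℝ) ^ (s + 2) = N * (N : ℝ) ^ (s + 1) := by ring
  nlinarith

open Classical in
/-- **STEP** -/
theorem t_STEP (hADM : S_ADM) (hCT : S_CT) : S_STEP := by
  intro s hs
  obtain ⟨β, hβ, hβ2, NA, hNA⟩ := hADM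
  have hs1 : (0 : ℝ) < (s : ℝ) + 1 := by positivity
  refine ⟨β / (4 * ((s : ℝ) + 1)), by positivity, ?_, ?_⟩
  · rw [div_le_iff₀ (by positivity)]
    have : (0 : ℝ) ≤ s := by positivity
    nlinarith
  intro a hR hU
  have hκ4 : β / (4 * ((s : ℝ) + 1)) ≤ β / 4 := by
    apply div_le_div_of_nonneg_left hβ.le (by norm_num)
    have : (0 : ℝ) ≤ s := by positivity
    nlinarith
  have hκs : β / (4 * ((s : ℝ) + 1)) * (s + 1) = β / 4 := by field_simp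
  obtain ⟨NC, hNC⟩ := hCT s hs (model a) hR
  obtain ⟨Y1, hY1⟩ := eventually_atTop.1 (ev1 β hβ2)
  obtain ⟨Y2, hY2⟩ := eventually_atTop.1 ((tendsto_rpow_atTop hβ).eventually_ge_atTop 64)
  obtain ⟨XU, hXU⟩ := eventually_atTop.1 hU
  obtain ⟨NB, hNB⟩ := eventually_atTop.1 (evB s β hβ)
  refine ⟨NA + NC + ⌈Y1⌉₊ + ⌈Y2⌉₊ + ⌈XU⌉₊ + NB + (4 * 2 ^ s + 2) + 16, ?_⟩
  intro N hN F hF hFc hFA
  have hNR : (16 : ℝ) ≤ N := by
    have : 16 ≤ N := by omega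
    exact_mod_cast this
  have hexpN : (N : ℝ) + 1 ≤ Real.exp N := Real.add_one_le_exp _
  -- the pattern
  have hxU : XU ≤ Real.exp N := by
    have h1 : (⌈XU⌉₊ : ℝ) ≤ N := by
      have : ⌈XU⌉₊ ≤ N := by omega
      exact_mod_cast this
    linarith [Nat.le_ceil XU]
  obtain ⟨n', hn1, hn2, hn3⟩ := hXU (Real.exp N) hxU N (F.image (fun k => N - k))
    (by rw [Real.log_exp]) (by
      intro t ht
      obtain ⟨k, hk, rfl⟩ := mem_image.1 ht
      exact mem_range.2 (by omega)) (by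
      rw [Real.log_exp]
      refine le_trans ?_ hFc
      exact_mod_cast card_image_le) (adm_refl hF hFA)
  obtain ⟨N', hN'd⟩ : ∃ N' : ℕ, N' = n' + N := ⟨_, rfl⟩
  have hN'R : (N' : ℝ) = n' + N := by rw [hN'd]; push_cast; ring
  have hgt : Real.exp N < N' := by rw [hN'R]; linarith
  have hle : (N' : ℝ) ≤ 5 * Real.exp N := by rw [hN'R]; linarith
  have hNN' : N < N' := by
    have : (N : ℝ) < N' := by linarith
    exact_mod_cast this
  have hN'pos : (0 : ℝ) < N' := by linarith [Real.exp_pos (N : ℝ)]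
  have hN'1 : (1 : ℝ) ≤ N' := by linarith
  have hlog : Real.log N' ≤ N + 2 := by
    rw [Real.log_le_iff_le_exp hN'pos, Real.exp_add]
    refine hle.trans ?_
    have h1 : (2.7 : ℝ) < Real.exp 1 := lt_trans (by norm_num) Real.exp_one_gt_d9
    have h2 : Real.exp 2 = Real.exp 1 * Real.exp 1 := by rw [← Real.exp_add]; norm_num
    have h3 : (5 : ℝ) ≤ Real.exp 2 := by rw [h2]; nlinarith
    nlinarith [Real.exp_pos (N : ℝ)]
  have hlog0 : 0 ≤ Real.log N' := Real.log_nonneg hN'1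
  have hNβ : (N : ℝ) ^ (s + 1) + 1 ≤ (N' : ℝ) ^ β := by
    refine (hNB N (by omega)).trans ?_
    rw [mul_comm, Real.exp_mul]
    exact Real.rpow_le_rpow (Real.exp_pos _).le hgt.le hβ.le
  have hA := evA s (by omega) N (by omega)
  have hlogs : 4 * (Real.log N') ^ s + 2 * N ≤ (N : ℝ) ^ (s + 1) := by
    have h1 : (Real.log N') ^ s ≤ ((N : ℝ) + 2) ^ s := pow_le_pow_left₀ hlog0 hlog s
    linarith
  have hNs : (N : ℝ) ≤ (N : ℝ) ^ (s + 1) := by
    calc (N : ℝ) = (N : ℝ) ^ 1 := (pow_one _).symm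
      _ ≤ (N : ℝ) ^ (s + 1) := pow_le_pow_right₀ (by linarith) (by omega)
  -- the new set
  obtain ⟨x₁, hx₁⟩ : ∃ x₁ : ℕ, x₁ = ⌊(N' : ℝ) ^ β⌋₊ := ⟨_, rfl⟩
  have hx₁le : (x₁ : ℝ) ≤ (N' : ℝ) ^ β := by
    rw [hx₁]; exact Nat.floor_le (by positivity)
  have hx₁ge : (N : ℝ) ^ (s + 1) ≤ x₁ := by
    have := Nat.lt_floor_add_one ((N' : ℝ) ^ β)
    rw [hx₁]; linarith
  have hβ12 : (N' : ℝ) ^ β ≤ (N' : ℝ) ^ (1 / 12 : ℝ) := Real.rpow_le_rpow_of_exponent_le hN'1 hβ2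
  have hβ1 : (N' : ℝ) ^ β ≤ N' := by
    calc (N' : ℝ) ^ β ≤ (N' : ℝ) ^ (1 : ℝ) := Real.rpow_le_rpow_of_exponent_le hN'1 (by linarith)
      _ = N' := Real.rpow_one _
  have hYY1 : Y1 ≤ N' := by
    have h1 : (⌈Y1⌉₊ : ℝ) ≤ N := by
      have : ⌈Y1⌉₊ ≤ N := by omega
      exact_mod_cast this
    have h2 : (N : ℝ) < N' := by exact_mod_cast hNN'
    linarith [Nat.le_ceil Y1]
  have hYY2 : Y2 ≤ N' := by
    have h1 : (⌈Y2⌉₊ : ℝ) ≤ N := by
      have : ⌈Y2⌉₊ ≤ N := by omega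
      exact_mod_cast this
    have h2 : (N : ℝ) < N' := by exact_mod_cast hNN'
    linarith [Nat.le_ceil Y2]
  obtain ⟨G, hG⟩ : ∃ G : Finset ℕ, G = (Ioc N x₁).filter (fun k => N' - k ∈ model a) := ⟨_, rfl⟩
  have hGc : (N' : ℝ) ^ (β / 4) ≤ (G.card : ℝ) := by
    have h1 := hNC N' (by omega) N x₁ (hlogs.trans hx₁ge) (hx₁le.trans hβ12)
    have h2 := fl ((N' : ℝ) ^ β) (hY2 N' hYY2)
    rw [← hx₁] at h2
    have h3 : (N' : ℝ) ^ (β / 4) = ((N' : ℝ) ^ β) ^ (1 / 4 : ℝ) := by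
      rw [← Real.rpow_mul hN'pos.le]; congr 1; ring
    rw [h3, hG]
    exact h2.trans h1
  have hmem : ∀ k ∈ F ∪ G, 1 ≤ k ∧ (k : ℝ) ≤ (N' : ℝ) ^ β ∧ N' - k ∈ model a := by
    intro k hk
    rcases mem_union.1 hk with h | h
    · have h1 := mem_Icc.1 (hF h)
      have h2 : (k : ℝ) ≤ N := by exact_mod_cast h1.2
      refine ⟨h1.1, by linarith, ?_⟩
      have h3 := hn3 (N - k) (mem_image_of_mem _ h)
      have h4 : N' - k = n' + (N - k) := by omega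
      rw [h4]; exact h3
    · rw [hG, mem_filter, mem_Ioc] at h
      have h2 : (k : ℝ) ≤ x₁ := by exact_mod_cast h.1.2
      exact ⟨by omega, h2.trans hx₁le, h.2⟩
  refine ⟨N', F ∪ G, hNN', ?_, ?_, ?_, subset_union_left, ?_, fun k hk => (hmem k hk).2.2, ?_, ?_⟩
  · intro k hk
    have h1 := hmem k hk
    have h2 : (k : ℝ) ≤ N' := h1.2.1.trans hβ1
    exact mem_Icc.2 ⟨h1.1, by exact_mod_cast h2⟩
  · -- the number of elements
    have h1 : F ∪ G ⊆ Icc 1 x₁ := by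
      intro k hk
      have h2 := hmem k hk
      refine mem_Icc.2 ⟨h2.1, ?_⟩
      rw [hx₁]
      exact Nat.le_floor h2.2.1
    have h2 : ((F ∪ G).card : ℝ) ≤ x₁ := by
      have := card_le_card h1
      rw [Nat.card_Icc, Nat.add_sub_cancel] at this
      exact_mod_cast this
    have h3 := hY1 N' hYY1
    have h4 : 0 ≤ (N' : ℝ) ^ β := by positivity
    linarith
  · exact hNA N' (by omega) a (F ∪ G) (fun k hk => ⟨(hmem k hk).1, (hmem k hk).2.1⟩)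
      fun k hk => (hmem k hk).2.2
  · intro k hk hkN
    rcases mem_union.1 hk with h | h
    · exact h
    · rw [hG, mem_filter, mem_Ioc] at h
      omega
  · rw [hκs]
    refine hGc.trans ?_
    exact_mod_cast card_le_card subset_union_right
  · intro x hx1 hx2
    by_cases hxx : x ≤ x₁
    · have h1 := hNC N' (by omega) N x (hlogs.trans hx1)
        (le_trans (by exact_mod_cast hxx) (hx₁le.trans hβ12))
      have h2 : (x : ℝ) ^ (β / (4 * ((s : ℝ) + 1))) ≤ Real.sqrt x / 2 :=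
        pw x _ (by linarith) (by linarith)
      refine (h2.trans h1).trans ?_
      have h3 : (Ioc N x).filter (fun k => N' - k ∈ model a) ⊆ (F ∪ G).filter (fun k => k ≤ x) := by
        intro k hk
        rw [mem_filter, mem_Ioc] at hk
        rw [mem_filter, mem_union, hG, mem_filter, mem_Ioc]
        exact ⟨Or.inr ⟨⟨hk.1.1, by omega⟩, hk.2⟩, hk.1.2⟩
      exact_mod_cast card_le_card h3
    · have hx0 : (0 : ℝ) ≤ x := by positivity
      have h1 : (x : ℝ) ^ (β / (4 * ((s : ℝ) + 1))) ≤ (N' : ℝ) ^ (β / 4) := by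
        have hxN : (x : ℝ) ≤ N' := by exact_mod_cast hx2
        calc (x : ℝ) ^ (β / (4 * ((s : ℝ) + 1))) ≤ (N' : ℝ) ^ (β / (4 * ((s : ℝ) + 1))) :=
              Real.rpow_le_rpow hx0 hxN (by positivity)
          _ ≤ (N' : ℝ) ^ (β / 4) := Real.rpow_le_rpow_of_exponent_le hN'1 hκ4
      refine (h1.trans hGc).trans ?_
      have h3 : G ⊆ (F ∪ G).filter (fun k => k ≤ x) := by
        intro k hk
        rw [mem_filter]
        refine ⟨mem_union_right _ hk, ?_⟩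
        rw [hG, mem_filter, mem_Ioc] at hk
        omega
      exact_mod_cast card_le_card h3

end Pool.Agent.V5helper9.PTR
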